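import Pool.Agent.Y186.SM.Base

set_option autoImplicit false

/-!
# Project SM (helper33), job CHF
-/

namespace Pool.Agent.Y186.SM.Chf

open Pool.Agent.TH54.BU Pool.Agent.Y33.SM Pool.Agent.Y186.SM

variable {G : Type} [Group G]

theorem Vx_even (u x0 : G) (b : ℤ) : Vx u x0 (2 * b) = x0 ^ b := by
  unfold Vx
  rw [if_pos (by omega), mul_one]
  congr 1
  omega

theorem Vx_odd (u x0 : G) (b : ℤ) : Vx u x0 (2 * b + 1) = x0 ^ b * u := by
  unfold Vx
  rw [if_neg (by omega)]
  congr 2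
  omega

/-- projections of almost between points -/
theorem btw_k {w : GH G} {h : G} (hs : Str w h) {e : ℕ} {k : G → ℤ} (hk : Pj w h e k)
    {P Q y : G} {E : ℕ} (hy : w.d P y + w.d y Q ≤ w.d P Q + E) :
    (k P - k y).natAbs + (k y - k Q).natAbs ≤ (k P - k Q).natAbs + E + 2 * e ∧
      (e < (k P - k y).natAbs → e < (k y - k Q).natAbs → 2 * w.d y (h ^ k y) ≤ E + 2 * e) := by
  have hPQ : w.d (h ^ k P) (h ^ k Q) = (k P - k Q).natAbs := by
    have := str_d hs 1 (k P) (k Q)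
    rw [one_mul, one_mul] at this
    rw [this]; omega
  have t1 := w.d_tri P (h ^ k P) Q
  have t2 := w.d_tri (h ^ k P) (h ^ k Q) Q
  have t3 := w.d_comm Q (h ^ k Q)
  have key : e < (k P - k y).natAbs → e < (k y - k Q).natAbs →
      (k P - k y).natAbs + (k y - k Q).natAbs + 2 * w.d y (h ^ k y) ≤
        (k P - k Q).natAbs + E + 2 * e := by
    intro h1 h2
    have p1 := hk.proj _ _ h1
    have p2 := hk.proj _ _ h2
    omega
  refine ⟨?_, ?_⟩
  · rcases Nat.lt_or_ge e (k P - k y).natAbs with h1 | h1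
    · rcases Nat.lt_or_ge e (k y - k Q).natAbs with h2 | h2
      · have := key h1 h2
        omega
      · omega
    · omega
  · intro h1 h2
    have := key h1 h2
    omega

theorem chain {w : GH G} {h : G} (hs : Str w h) {e : ℕ} {k : G → ℤ} (hk : Pj w h e k)
    {A1 C κ : ℕ} (hκ : 2 * C + 2 * e + A1 + 1 ≤ κ) (V : ℤ → G)
    (hV : ∀ a b c : ℤ, a ≤ b → b ≤ c → w.d (V a) (V b) + w.d (V b) (V c) ≤ w.d (V a) (V c) + C)
    (hd : ∀ a : ℤ, κ ≤ w.d (V a) (V (a + 1)) + C)
    (hst : ∀ a : ℤ, (k (V a) - k (V (a + 1))).natAbs ≤ A1) (a : ℤ) (N : ℕ) :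
    (k (V a) - k (V (a + N))).natAbs ≤ 2 * e + 2 * A1 := by
  by_contra hcon
  push Not at hcon
  have hex : ∃ n : ℕ, e + A1 < (k (V a) - k (V (a + n))).natAbs := ⟨N, by omega⟩
  classical
  obtain ⟨m, hm, hmin⟩ : ∃ m : ℕ, e + A1 < (k (V a) - k (V (a + m))).natAbs ∧
      ∀ m' < m, ¬ (e + A1 < (k (V a) - k (V (a + m'))).natAbs) :=
    ⟨Nat.find hex, Nat.find_spec hex, fun m' hm' => Nat.find_min hex hm'⟩
  have hmN : m ≤ N := by
    by_contra hlt
    push Not at hlt
    exact hmin N hlt (by omega)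
  obtain ⟨m', rfl⟩ : ∃ m', m = m' + 1 := by
    refine ⟨m - 1, ?_⟩
    rcases Nat.eq_zero_or_pos m with h0 | h0
    · subst h0
      simp at hm
    · omega
  have h1 := hmin m' (by omega)
  have h2 := hst (a + m')
  have e1 : a + ((m' + 1 : ℕ) : ℤ) = a + m' + 1 := by push_cast; ring
  rw [e1] at hm
  have b1 := hV a (a + m') (a + N) (by omega) (by omega)
  have b2 := hV a (a + m' + 1) (a + N) (by omega) (by omega)
  have c1 := (btw_k hs hk b1).2 (by omega) (by omega)
  have c2 := (btw_k hs hk b2).2 (by omega) (by omega)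
  have hPQ : w.d (h ^ k (V (a + m'))) (h ^ k (V (a + m' + 1))) =
      (k (V (a + m')) - k (V (a + m' + 1))).natAbs := by
    have := str_d hs 1 (k (V (a + m'))) (k (V (a + m' + 1)))
    rw [one_mul, one_mul] at this
    rw [this]; omega
  have t1 := w.d_tri (V (a + m')) (h ^ k (V (a + m'))) (V (a + m' + 1))
  have t2 := w.d_tri (h ^ k (V (a + m'))) (h ^ k (V (a + m' + 1))) (V (a + m' + 1))
  have t3 := w.d_comm (V (a + m' + 1)) (h ^ k (V (a + m' + 1)))
  have t4 := hd (a + m')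
  omega

theorem t (hA : S_ACY) : S_CHF := by
  intro G _ w h h' e k hw hs hs' hn hk C E A
  obtain ⟨O, hO⟩ := exists_Ow hA w hw hs hs' hn hk
  set A1 := A + O + 6 + 2 * e with hA1
  refine ⟨2 * (A1 + E + 2 * e) + (2 * e + 2 * A1), 2 * C + 2 * e + A1 + 1, ?_⟩
  intro κ hκ u x0 hz hu x v hx hnear g p q
  obtain ⟨j, j', hj1, hj2, hj3, hj4, hx0, -⟩ := hz.ex
  -- consecutive vertices
  have hst : ∀ (g : G) (a : ℤ), (k (g * Vx u x0 a) - k (g * Vx u x0 (a + 1))).natAbs ≤ A1 := by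
    intro g a
    rcases Int.even_or_odd' a with ⟨b, rfl | rfl⟩
    · rw [Vx_even, Vx_odd, ← mul_assoc]
      have := hu (g * x0 ^ b)
      omega
    · rw [show (2 * b + 1 + 1 : ℤ) = 2 * (b + 1) by ring, Vx_even, Vx_odd]
      have l1 := k_lip hk (g * (x0 ^ b * u)) (g * x0 ^ b * u * h ^ j * h' ^ (0 : ℤ))
      have l2 := hO (g * x0 ^ b * u * h ^ j) 0 ((2 * κ : ℕ) : ℤ)
      have l3 := k_lip hk (g * x0 ^ b * u * h ^ j * h' ^ ((2 * κ : ℕ) : ℤ)) (g * x0 ^ (b + 1))
      have e1 : w.d (g * (x0 ^ b * u)) (g * x0 ^ b * u * h ^ j * h' ^ (0 : ℤ)) = j := by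
        have : w.d (g * (x0 ^ b * u)) (g * x0 ^ b * u * h ^ j * h' ^ (0 : ℤ)) =
            w.len (h ^ j) := by
          unfold GH.d; congr 1; group
        rw [this, hs]
      have e2 : w.d (g * x0 ^ b * u * h ^ j * h' ^ ((2 * κ : ℕ) : ℤ)) (g * x0 ^ (b + 1)) =
          j' := by
        have : w.d (g * x0 ^ b * u * h ^ j * h' ^ ((2 * κ : ℕ) : ℤ)) (g * x0 ^ (b + 1)) =
            w.len (h ^ j') := by
          unfold GH.d; congr 1
          rw [zpow_natCast, zpow_add_one]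
          have : x0 ^ b * x0 = x0 ^ b * (u * h ^ j * h' ^ (2 * κ) * h ^ j') := by
            rw [← hx0]
          rw [this]
          group
        rw [this, hs]
      omega
  have hd : ∀ a : ℤ, κ ≤ w.d (Vx u x0 a) (Vx u x0 (a + 1)) + C := by
    intro a
    rcases Int.even_or_odd' a with ⟨b, rfl | rfl⟩
    · rw [Vx_even, Vx_odd]
      have : w.d (x0 ^ b) (x0 ^ b * u) = w.len u := by
        unfold GH.d; congr 1; group
      have := hz.hu
      omega
    · rw [show (2 * b + 1 + 1 : ℤ) = 2 * (b + 1) by ring, Vx_even, Vx_odd]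
      have : w.d (x0 ^ b * u) (x0 ^ (b + 1)) = w.len (u⁻¹ * x0) := by
        unfold GH.d; congr 1
        rw [zpow_add_one]; group
      have := hz.len
      omega
  have hch : ∀ (g : G) (a b : ℤ), (k (g * Vx u x0 a) - k (g * Vx u x0 b)).natAbs ≤
      2 * e + 2 * A1 := by
    intro g a b
    have key := chain hs hk hκ (fun a => g * Vx u x0 a) (by
      intro a b c hab hbc
      change w.d (g * Vx u x0 a) (g * Vx u x0 b) + w.d (g * Vx u x0 b) (g * Vx u x0 c) ≤
        w.d (g * Vx u x0 a) (g * Vx u x0 c) + C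
      rw [w.d_mul, w.d_mul, w.d_mul]
      exact hz.btw a b c hab hbc) (by
      intro a
      change κ ≤ w.d (g * Vx u x0 a) (g * Vx u x0 (a + 1)) + C
      rw [w.d_mul]
      exact hd a) (fun a => hst g a)
    rcases le_total a b with hab | hab
    · obtain ⟨N, hN⟩ := Int.eq_ofNat_of_zero_le (sub_nonneg.2 hab)
      have := key a N
      rwa [show a + (N : ℤ) = b by omega] at this
    · obtain ⟨N, hN⟩ := Int.eq_ofNat_of_zero_le (sub_nonneg.2 hab)
      have := key b N
      rw [show b + (N : ℤ) = a by omega] at this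
      omega
  obtain ⟨a, ha⟩ := hnear p
  obtain ⟨b, hb⟩ := hnear q
  set g' := g * v⁻¹ with hg'
  have ep : g * x ^ p = g' * (v * x ^ p) := by rw [hg']; group
  have eq' : g * x ^ q = g' * (v * x ^ q) := by rw [hg']; group
  rw [ep, eq']
  have i1 := (btw_k hs hk (P := g' * Vx u x0 a) (Q := g' * Vx u x0 (a + 1))
    (y := g' * (v * x ^ p)) (E := E) (by simp only [w.d_mul]; exact ha)).1
  have i2 := (btw_k hs hk (P := g' * Vx u x0 b) (Q := g' * Vx u x0 (b + 1))
    (y := g' * (v * x ^ q)) (E := E) (by simp only [w.d_mul]; exact hb)).1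
  have i3 := hch g' a b
  have i4 := hst g' a
  have i5 := hst g' b
  omega

end Pool.Agent.Y186.SM.Chf
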