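import Pool.Agent.Y186.SM.Base

set_option autoImplicit false

/-!
# Project SM (helper33), job ALPHA
-/

namespace Pool.Agent.Y186.SM.Alpha

open Pool.Agent.TH54.BU Pool.Agent.Y33.SM Pool.Agent.Y186.SM

theorem t (hA : S_ACY) : S_ALPHA := by
  intro G _ w h h' e k hw hs hs' hn hk
  obtain ⟨O, hO⟩ := exists_Ow hA w hw hs hs' hn hk
  refine ⟨O + 2 * (5 * w.D + e), fun E => ⟨E + w.D + 1, ?_⟩⟩
  rintro γ l hγ ⟨g, p, q, h0, h1⟩ i j hi hij hj g'
  obtain ⟨a, ha⟩ := near_line hs' hγ h0 h1 hi (by omega)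
  obtain ⟨b, hb⟩ := near_line hs' hγ h0 h1 (i := j) (by omega) hj
  have k1 := k_lip hk (g' * γ i) (g' * (g * h' ^ a))
  have k2 := k_lip hk (g' * γ j) (g' * (g * h' ^ b))
  rw [w.d_mul] at k1 k2
  have k3 := hO (g' * g) a b
  rw [mul_assoc, mul_assoc] at k3
  omega

end Pool.Agent.Y186.SM.Alpha
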