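import Pool.Agent.Y33.SM.Stm
import Pool.Agent.TH54.BU.Cent
import Pool.Agent.TH54.BU.Local

/-!
# Project SM (helper33): straight elements, transverse straight lines have small projections
-/

set_option autoImplicit false

namespace Pool.Agent.Y186.SM

open Pool.Agent.TH54.BU Pool.Agent.Y33.SM

variable {G : Type} [Group G]

theorem str_inf {w : GH G} {h : G} (hs : Str w h) : ¬ IsOfFinOrder h := by
  intro hf
  obtain ⟨m, hm, hm1⟩ := isOfFinOrder_iff_pow_eq_one.1 hf
  have := hs m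
  rw [hm1, w.len_one] at this
  omega

theorem str_z {w : GH G} {h : G} (hs : Str w h) (z : ℤ) : w.len (h ^ z) = z.natAbs := by
  rw [w.len_zpow, hs]

theorem str_d {w : GH G} {h : G} (hs : Str w h) (g : G) (a b : ℤ) :
    w.d (g * h ^ a) (g * h ^ b) = (b - a).natAbs := by
  rw [w.d_mul]
  unfold GH.d
  rw [← zpow_neg, ← zpow_add, str_z hs]
  congr 1
  ring

theorem mix_of_acy {w : GH G} {K B : ℕ} (h : w.Acy K B) : w.Mix K B 0 := by
  intro q hq
  refine ⟨fun g hg => (h q hq g hg).1, Or.inl fun g hg k hk => (h q hq g hg).2 k hk⟩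

/-- a conjugate of `h'` which commutes with `h` -/
theorem nc_contra {w : GH G} {K B T : ℕ} (hK : 100 * w.D + 100 ≤ K) (hS : w.Stab T)
    (hA : w.Acy K B) {h h' : G} (hs : Str w h) (hn : NC h h') (c : G)
    (hc : (c * h' * c⁻¹) * h = h * (c * h' * c⁻¹)) : False := by
  obtain ⟨x, hx, m, hm⟩ := w.cyc hK hS (mix_of_acy hA) (str_inf hs)
  change x ^ m = h at hm
  have hxh : x * h = h * x := by
    rw [← hm, ← zpow_one_add, ← zpow_add_one, add_comm]
  have := w.ct hK hS (mix_of_acy hA) (str_inf hs) hc hxh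
  obtain ⟨r, hr⟩ := hx.2 _ this
  change x ^ r = _ at hr
  have hm0 : m ≠ 0 := by
    rintro rfl
    rw [zpow_zero] at hm
    exact str_inf hs (hm ▸ IsOfFinOrder.one)
  apply hn c m r hm0
  rw [← conj_zpow, ← hr, ← hm, ← zpow_mul, ← zpow_mul, mul_comm]

/-- points almost between two points of a straight line are close to the line -/
theorem on_line {w : GH G} {h : G} (hs : Str w h) {g x : G} {p q : ℤ} {c : ℕ}
    (hx : w.d (g * h ^ p) x + w.d x (g * h ^ q) ≤ w.d (g * h ^ p) (g * h ^ q) + c) :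
    ∃ j : ℤ, w.d x (g * h ^ j) ≤ 2 * c + w.D := by
  have hpq := str_d hs g p q
  set t := min (w.d (g * h ^ p) x) (q - p).natAbs with ht
  have key : ∀ j : ℤ, (j - p).natAbs = t → (q - j).natAbs + t = (q - p).natAbs →
      w.d x (g * h ^ j) ≤ 2 * c + w.D := by
    intro j h1 h2
    have e1 := str_d hs g p j
    have e2 := str_d hs g j q
    have n := w.nr hx (y := g * h ^ j) (by omega)
    have t1 := w.d_tri (g * h ^ p) x (g * h ^ q)
    omega
  rcases le_total p q with hle | hle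
  · exact ⟨p + t, key _ (by omega) (by omega)⟩
  · exact ⟨p - t, key _ (by omega) (by omega)⟩

/-- the projection is coarsely Lipschitz -/
theorem k_lip {w : GH G} {h : G} {e : ℕ} {k : G → ℤ} (hk : Pj w h e k) (y y' : G) :
    (k y - k y').natAbs ≤ w.d y y' + e := by
  rcases Nat.lt_or_ge e (k y - k y').natAbs with h1 | h1
  · have := hk.proj y y' h1
    omega
  · omega

/-- the lines of `h'` have small projections to the line of `h` -/
theorem exists_Ow (hA : S_ACY) (w : GH G) {h h' : G} {e : ℕ} {k : G → ℤ} (hw : NW w)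
    (hs : Str w h) (hs' : Str w h') (hn : NC h h') (hk : Pj w h e k) :
    ∃ O : ℕ, ∀ (c : G) (i l : ℤ), (k (c * h' ^ i) - k (c * h' ^ l)).natAbs ≤ O := by
  obtain ⟨T, hT, hB⟩ := hA G w hw
  obtain ⟨B, hB⟩ := hB (100 * w.D + 100 + 4 * e + 1)
  refine ⟨max B e, fun c i l => ?_⟩
  by_contra hcon
  push Not at hcon
  obtain ⟨hcB, hce⟩ := max_lt_iff.1 hcon
  have hp := hk.proj _ _ hce
  have hd := str_d hs' c i l
  have hPQ : w.d (h ^ k (c * h' ^ i)) (h ^ k (c * h' ^ l)) =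
      (k (c * h' ^ i) - k (c * h' ^ l)).natAbs := by
    have := str_d hs 1 (k (c * h' ^ i)) (k (c * h' ^ l))
    rw [one_mul, one_mul] at this
    rw [this]
    omega
  set a := c * h' ^ i with ha
  set b := c * h' ^ l with hb
  set P := h ^ k a with hP
  set Q := h ^ k b with hQ
  have t1 := w.d_tri P Q b
  have t2 := w.d_tri a P Q
  have t3 := w.d_comm b Q
  obtain ⟨j1, hj1⟩ := on_line hs' (x := P) (g := c) (p := i) (q := l) (c := e)
    (by rw [← ha, ← hb]; omega)
  obtain ⟨j2, hj2⟩ := on_line hs' (x := Q) (g := c) (p := i) (q := l) (c := e)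
    (by rw [← ha, ← hb]; omega)
  -- displacement of `c * h' * c⁻¹`
  have hdis : ∀ (x : G) (j : ℤ), w.d x (c * h' ^ j) ≤ 2 * e + w.D →
      w.d x (c * h' * c⁻¹ * x) ≤ 4 * e + 2 * w.D + 1 := by
    intro x j hx
    have e1 : c * h' * c⁻¹ * (c * h' ^ j) = c * h' ^ (j + 1) := by
      rw [zpow_add_one]
      have : h' ^ j * h' = h' * h' ^ j := by
        rw [← zpow_add_one, ← zpow_one_add, add_comm]
      rw [this]; group
    have e2 := str_d hs' c j (j + 1)
    have e3 := w.d_tri x (c * h' ^ j) (c * h' ^ (j + 1))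
    have e4 := w.d_tri x (c * h' ^ (j + 1)) (c * h' * c⁻¹ * x)
    have e5 : w.d (c * h' ^ (j + 1)) (c * h' * c⁻¹ * x) = w.d (c * h' ^ j) x := by
      rw [← e1, w.d_mul]
    have e6 := w.d_comm (c * h' ^ j) x
    omega
  have d1 := hdis P j1 hj1
  have d2 := hdis Q j2 hj2
  have hq : B ≤ w.len (P⁻¹ * Q) := by
    have : w.len (P⁻¹ * Q) = w.d P Q := rfl
    omega
  have hPh : P * h = h * P := by
    rw [hP, ← zpow_add_one, ← zpow_one_add, add_comm]
  have hQh : Q * h = h * Q := by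
    rw [hQ, ← zpow_add_one, ← zpow_one_add, add_comm]
  have hPQh : (P⁻¹ * Q)⁻¹ * h * (P⁻¹ * Q) = h := by
    have c1 : Commute P h := hPh
    have c2 : Commute Q h := hQh
    have c3 : Commute (P⁻¹ * Q) h := (c1.inv_left).mul_left c2
    rw [mul_assoc, c3.symm.eq, ← mul_assoc, inv_mul_cancel, one_mul]
  have hh1 : w.len h = 1 := by have := hs 1; rwa [pow_one] at this
  have m1 : h ∈ w.SD (100 * w.D + 100 + 4 * e + 1) (P⁻¹ * Q) := by
    refine ⟨by omega, ?_⟩
    rw [hPQh]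
    omega
  have m2 : P⁻¹ * (c * h' * c⁻¹) * P ∈ w.SD (100 * w.D + 100 + 4 * e + 1) (P⁻¹ * Q) := by
    refine ⟨?_, ?_⟩
    · have : w.len (P⁻¹ * (c * h' * c⁻¹) * P) = w.d P (c * h' * c⁻¹ * P) := by
        unfold GH.d; congr 1; group
      omega
    · have : w.len ((P⁻¹ * Q)⁻¹ * (P⁻¹ * (c * h' * c⁻¹) * P) * (P⁻¹ * Q)) =
          w.d Q (c * h' * c⁻¹ * Q) := by
        unfold GH.d; congr 1; group
      omega
  have hcom := (hB _ hq _ m1).2 _ m2
  apply nc_contra (K := 100 * w.D + 100 + 4 * e + 1) (by omega) hT hB hs hn c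
  have e1 : c * h' * c⁻¹ * h = P * ((P⁻¹ * (c * h' * c⁻¹) * P) * h) * P⁻¹ := by
    have : P * ((P⁻¹ * (c * h' * c⁻¹) * P) * h) * P⁻¹ = (c * h' * c⁻¹) * (P * h) * P⁻¹ := by
      group
    rw [this, hPh]
    group
  have e2 : h * (c * h' * c⁻¹) = P * (h * (P⁻¹ * (c * h' * c⁻¹) * P)) * P⁻¹ := by
    have : P * (h * (P⁻¹ * (c * h' * c⁻¹) * P)) * P⁻¹ = (P * h) * P⁻¹ * (c * h' * c⁻¹) := by
      group
    rw [this, hPh]
    group
  rw [e1, e2, hcom]

/-- distances on a geodesic -/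
theorem geod_le {w : GH G} {γ : ℕ → G} {n : ℕ} (hγ : ∀ i, i < n → w.d (γ i) (γ (i + 1)) ≤ 1)
    (i : ℕ) : ∀ j, i + j ≤ n → w.d (γ i) (γ (i + j)) ≤ j := by
  intro j
  induction j with
  | zero => intro _; simp [w.d_self]
  | succ j ih =>
    intro hj
    have h1 := ih (by omega)
    have h2 := hγ (i + j) (by omega)
    have h3 := w.d_tri (γ i) (γ (i + j)) (γ (i + j + 1))
    have e : i + (j + 1) = i + j + 1 := by ring
    rw [e]
    omega

/-- distances on a geodesic -/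
theorem geod_d {w : GH G} {γ : ℕ → G} {n : ℕ} (hγ : w.Geod γ n) {i j : ℕ} (hij : i ≤ j)
    (hj : j ≤ n) : w.d (γ i) (γ j) = j - i := by
  have h1 := geod_le hγ.1 0 i (by omega)
  have h2 := geod_le hγ.1 i (j - i) (by omega)
  have h3 := geod_le hγ.1 j (n - j) (by omega)
  rw [zero_add] at h1
  rw [show i + (j - i) = j by omega] at h2
  rw [show j + (n - j) = n by omega] at h3
  have h4 := w.d_tri (γ 0) (γ i) (γ n)
  have h5 := w.d_tri (γ i) (γ j) (γ n)
  have h6 := hγ.2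
  omega

/-- the middle part of a geodesic with ends close to a straight line is close to the line -/
theorem near_line {w : GH G} {h : G} (hs : Str w h) {γ : ℕ → G} {l : ℕ} (hγ : w.Geod γ l)
    {g : G} {p q : ℤ} {E : ℕ} (h0 : w.d (γ 0) (g * h ^ p) ≤ E) (h1 : w.d (γ l) (g * h ^ q) ≤ E)
    {i : ℕ} (hi : E + w.D + 1 ≤ i) (hil : i + (E + w.D + 1) ≤ l) :
    ∃ j : ℤ, w.d (γ i) (g * h ^ j) ≤ 5 * w.D := by
  have d1 := geod_d hγ (Nat.zero_le i) (by omega)
  have d2 := geod_d hγ (show i ≤ l by omega) le_rfl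
  have d3 := hγ.2
  have s1 := w.tr1 (a := γ 0) (b := γ l) (a' := g * h ^ p) (x := γ i) (c := 0) (r := E)
    (by omega) h0 (by omega)
  have c1 := w.d_comm (γ i) (γ l)
  have c2 := w.d_comm (γ i) (g * h ^ p)
  have c3 := w.d_comm (γ l) (g * h ^ p)
  have s2 := w.tr1 (a := γ l) (b := g * h ^ p) (a' := g * h ^ q) (x := γ i) (c := w.D) (r := E)
    (by omega) h1 (by omega)
  have c4 := w.d_comm (γ i) (g * h ^ q)
  have c5 := w.d_comm (g * h ^ q) (g * h ^ p)
  obtain ⟨j, hj⟩ := on_line hs (x := γ i) (g := g) (p := p) (q := q) (c := 2 * w.D) (by omega)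
  exact ⟨j, by omega⟩

end Pool.Agent.Y186.SM
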