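import Pool.Agent.Y186.SM.Chf

set_option autoImplicit false

/-!
# Project SM (helper33), job ZIG
-/

namespace Pool.Agent.Y186.SM.Zig

open Pool.Agent.TH54.BU Pool.Agent.Y33.SM Pool.Agent.Y186.SM

variable {G : Type} [Group G]

/-- a non trivial power of `h` which commutes with `h'` -/
theorem nc_contra2 {w : GH G} {K B T : ℕ} (hK : 100 * w.D + 100 ≤ K) (hS : w.Stab T)
    (hA : w.Acy K B) {h h' : G} (hs : Str w h) (hs' : Str w h') (hn : NC h h') {m : ℤ}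
    (hm : m ≠ 0) (hc : h ^ m * h' = h' * h ^ m) : False := by
  obtain ⟨z, hz, s, hsz⟩ := w.cyc hK hS (mix_of_acy hA) (str_inf hs')
  change z ^ s = h' at hsz
  have hzh : z * h' = h' * z := by
    rw [← hsz, ← zpow_one_add, ← zpow_add_one, add_comm]
  have := w.ct hK hS (mix_of_acy hA) (str_inf hs') hc hzh
  obtain ⟨r, hr⟩ := hz.2 _ this
  change z ^ r = _ at hr
  have hr0 : r ≠ 0 := by
    rintro rfl
    rw [zpow_zero] at hr
    have h1 := str_z hs m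
    rw [← hr, w.len_one] at h1
    omega
  apply hn 1 r (m * s) hr0
  rw [one_mul, inv_one, mul_one, zpow_mul, ← hr, ← hsz, ← zpow_mul, ← zpow_mul, mul_comm]

theorem t (hC : S_CRN) (hA : S_ACY) : S_ZIG := by
  intro G _ w h h' hw hs hs' hn
  obtain ⟨C1, hC1⟩ := hC G w h h' hw hs hs' hn
  obtain ⟨T, hT, hB⟩ := hA G w hw
  obtain ⟨B, hB⟩ := hB (100 * w.D + 100)
  refine ⟨C1 + 9 + 2 * w.D, C1 + 9 + 2 * w.D + 7, ?_⟩
  intro κ hκ u hu
  obtain ⟨j1, j2, j', hne, h11, h12, h21, h22, hj1', hj2', hN⟩ := hC1 u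
  -- choice of the corner
  obtain ⟨j, hja, hjb, hcom, hlen⟩ : ∃ j : ℕ, 1 ≤ j ∧ j ≤ 3 ∧
      h ^ j' * u * h ^ j * h' ≠ h' * (h ^ j' * u * h ^ j) ∧
      ∀ N : ℕ, w.len u + N ≤ w.len (u * h ^ j * h' ^ N) + C1 := by
    by_cases hc1 : h ^ j' * u * h ^ j1 * h' = h' * (h ^ j' * u * h ^ j1)
    · refine ⟨j2, h21, h22, ?_, fun N => (hN N).2.1⟩
      intro hc2
      have c1 : Commute (h ^ j' * u * h ^ j1) h' := hc1
      have c2 : Commute (h ^ j' * u * h ^ j2) h' := hc2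
      have c3 : Commute ((h ^ j' * u * h ^ j1)⁻¹ * (h ^ j' * u * h ^ j2)) h' :=
        (c1.inv_left).mul_left c2
      have e : (h ^ j' * u * h ^ j1)⁻¹ * (h ^ j' * u * h ^ j2) = h ^ ((j2 : ℤ) - j1) := by
        rw [zpow_sub, zpow_natCast, zpow_natCast]
        have c4 : Commute (h ^ j2) (h ^ j1)⁻¹ := ((Commute.refl h).pow_pow j2 j1).inv_right
        rw [c4.eq]
        group
      rw [e] at c3
      exact nc_contra2 le_rfl hT hB hs hs' hn (m := (j2 : ℤ) - j1) (by omega) c3.eq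
    · exact ⟨j1, h11, h12, hc1, fun N => (hN N).1⟩
  set x0 := u * h ^ j * h' ^ (2 * κ) * h ^ j' with hx0
  have hjl := hs j
  have hjl' := hs j'
  have hkl := hs' (2 * κ)
  have e0 : u⁻¹ * x0 = h ^ j * h' ^ (2 * κ) * h ^ j' := by rw [hx0]; group
  -- lower and upper bound for the second side
  have L1 : 2 * κ ≤ w.len (u⁻¹ * x0) + 6 := by
    have l1 := w.len_mul (h ^ j)⁻¹ (h ^ j * h' ^ (2 * κ) * h ^ j')
    have l2 := w.len_mul ((h ^ j)⁻¹ * (h ^ j * h' ^ (2 * κ) * h ^ j')) (h ^ j')⁻¹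
    have e : (h ^ j)⁻¹ * (h ^ j * h' ^ (2 * κ) * h ^ j') * (h ^ j')⁻¹ = h' ^ (2 * κ) := by group
    rw [e, w.len_inv] at l2
    rw [w.len_inv] at l1
    rw [e0]
    omega
  have L2 : w.len (u⁻¹ * x0) ≤ 2 * κ + 6 := by
    have l1 := w.len_mul (h ^ j * h' ^ (2 * κ)) (h ^ j')
    have l2 := w.len_mul (h ^ j) (h' ^ (2 * κ))
    rw [e0]
    omega
  have L3 : 3 * κ ≤ w.len x0 + C1 + 3 := by
    have l1 := w.len_mul x0 (h ^ j')⁻¹
    have e : x0 * (h ^ j')⁻¹ = u * h ^ j * h' ^ (2 * κ) := by rw [hx0]; group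
    rw [e, w.len_inv] at l1
    have := hlen (2 * κ)
    omega
  have L4 : 3 * κ ≤ w.len (u⁻¹ * x0 * u) + C1 + 3 := by
    have l1 := w.len_mul (h ^ j)⁻¹ (u⁻¹ * x0 * u)
    have e : (h ^ j)⁻¹ * (u⁻¹ * x0 * u) = h' ^ (2 * κ) * h ^ j' * u := by rw [hx0]; group
    rw [e, w.len_inv] at l1
    have := (hN (2 * κ)).2.2
    omega
  have D1 : ∀ b : ℤ, w.d (x0 ^ b) (x0 ^ b * u) = κ := by
    intro b
    rw [← hu]; unfold GH.d; congr 1; group
  have D2 : ∀ b : ℤ, w.d (x0 ^ b * u) (x0 ^ (b + 1)) = w.len (u⁻¹ * x0) := by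
    intro b
    unfold GH.d; congr 1
    rw [zpow_add_one]; group
  have D3 : ∀ b : ℤ, w.d (x0 ^ b) (x0 ^ (b + 1)) = w.len x0 := by
    intro b
    unfold GH.d; congr 1
    rw [zpow_add_one]; group
  have D4 : ∀ b : ℤ, w.d (x0 ^ b * u) (x0 ^ (b + 1) * u) = w.len (u⁻¹ * x0 * u) := by
    intro b
    unfold GH.d; congr 1
    rw [zpow_add_one]; group
  refine ⟨x0, hu, ⟨j, j', hja, hjb, hj1', hj2', hx0, hcom⟩, by omega, ?_⟩
  have hst1 : ∀ a : ℤ, κ ≤ w.d (Vx u x0 a) (Vx u x0 (a + 1)) := by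
    intro a
    rcases Int.even_or_odd' a with ⟨b, rfl | rfl⟩
    · rw [Chf.Vx_even, Chf.Vx_odd, D1]
    · rw [show (2 * b + 1 + 1 : ℤ) = 2 * (b + 1) by ring, Chf.Vx_even, Chf.Vx_odd, D2]
      omega
  have hst2 : ∀ a : ℤ, w.d (Vx u x0 a) (Vx u x0 (a + 1)) +
      w.d (Vx u x0 (a + 1)) (Vx u x0 (a + 2)) ≤ w.d (Vx u x0 a) (Vx u x0 (a + 2)) + (C1 + 9) := by
    intro a
    rcases Int.even_or_odd' a with ⟨b, rfl | rfl⟩
    · rw [show (2 * b + 2 : ℤ) = 2 * (b + 1) by ring, Chf.Vx_even, Chf.Vx_even, Chf.Vx_odd, D1,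
        D2, D3]
      omega
    · rw [show (2 * b + 1 + 2 : ℤ) = 2 * (b + 1) + 1 by ring,
        show (2 * b + 1 + 1 : ℤ) = 2 * (b + 1) by ring, Chf.Vx_even, Chf.Vx_odd, Chf.Vx_odd, D1,
        D2, D4]
      omega
  intro a b c hab hbc
  obtain ⟨m, hm⟩ := Int.eq_ofNat_of_zero_le (sub_nonneg.2 hab)
  obtain ⟨n, hn'⟩ := Int.eq_ofNat_of_zero_le (sub_nonneg.2 hbc)
  have key := (w.lg (C1 + 9) (fun i : ℕ => Vx u x0 (a + i)) (m + n) (by
    intro i _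
    have := hst2 (a + i)
    rw [show a + ((i + 1 : ℕ) : ℤ) = a + i + 1 by push_cast; ring,
      show a + ((i + 2 : ℕ) : ℤ) = a + i + 2 by push_cast; ring]
    exact this) (by
    intro i _
    have := hst1 (a + i)
    rw [show a + ((i + 1 : ℕ) : ℤ) = a + i + 1 by push_cast; ring]
    omega)).1 m (by omega)
  simp only [Nat.cast_zero, add_zero] at key
  rw [show a + (m : ℤ) = b by omega, show a + ((m + n : ℕ) : ℤ) = c by push_cast; omega] at key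
  omega

end Pool.Agent.Y186.SM.Zig
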